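import Mathlib
import Pool.Agent.W777.DL.Avg
set_option autoImplicit false

/-!
# Stein's restriction conjecture for almost every dilate of a density on the sphere of `ℝ³`

Let `f` be a bounded Borel function on the plane. For `0 < lam < 1` let `dil lam f` be the density
on the unit sphere of `ℝ³` which is `f(x₁/lam, x₂/lam)` at the points `x` of the open upper
half sphere with `x₁² + x₂² < lam²`, and `0` elsewhere: the dilates of one bounded density on a cap.

* For each `f` and each `p > 3` the set of dilation parameters `lam` for which the Fourier transform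
  of the measure `(dil lam f) dσ` is not in `L^p(ℝ³)` has Hausdorff dimension at most
  `(4 - p)/(p - 2) < 1`.
* For each `f` and almost every `lam`, the Fourier transform of `(dil lam f) dσ` is in `L^p(ℝ³)` for
  every `p > 3`.
-/

namespace Pool.Agent.Results.MP_6cbfb8_an.AlmostEveryDilate

open MeasureTheory Set Metric Complex Filter
open scoped ENNReal NNReal RealInnerProductSpace Topology

/-- The Fourier transform of the measure `g dσ`, where `σ` is the surface measure of the unit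
sphere of `ℝ³`: `ξ ↦ ∫ exp(-2πi x·ξ) g(x) dσ(x)`. -/
noncomputable def FT (g : EuclideanSpace ℝ (Fin 3) → ℂ) (ξ : EuclideanSpace ℝ (Fin 3)) : ℂ :=
  ∫ x : sphere (0 : EuclideanSpace ℝ (Fin 3)) 1,
    cexp (-(2 * Real.pi * I) * ((⟪(x : EuclideanSpace ℝ (Fin 3)), ξ⟫ : ℝ) : ℂ)) * g x
      ∂(volume : Measure (EuclideanSpace ℝ (Fin 3))).toSphere

/-- The dilated density: `f(x₁/lam, x₂/lam)` if `x₃ > 0` and `x₁² + x₂² < lam²`, and `0`
otherwise. -/
noncomputable def dil (lam : ℝ) (f : EuclideanSpace ℝ (Fin 2) → ℂ)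
    (x : EuclideanSpace ℝ (Fin 3)) : ℂ :=
  if 0 < x 2 ∧ x 0 ^ 2 + x 1 ^ 2 < lam ^ 2 then f !₂[x 0 / lam, x 1 / lam] else 0

open Pool.Agent.W777.DL
open Pool.Agent.H789R2.FR (E sg)
open Pool.Agent.H153R4 (cube cube_vol)

lemma dil_eq {lam : ℝ} (h0 : 0 < lam) (f : E 2 → ℂ) (x : E 3) : dil lam f x = dens lam f x := by
  have h1 : ‖pr x‖ ^ 2 = x 0 ^ 2 + x 1 ^ 2 := by
    rw [EuclideanSpace.norm_sq_eq, Fin.sum_univ_two]
    have a0 : (pr x).ofLp 0 = x 0 := rfl
    have a1 : (pr x).ofLp 1 = x 1 := rfl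
    rw [a0, a1, Real.norm_eq_abs, Real.norm_eq_abs, sq_abs, sq_abs]
  have h2 : (x 0 ^ 2 + x 1 ^ 2 < lam ^ 2) ↔ ‖pr x‖ < lam := by
    rw [← h1]
    exact sq_lt_sq₀ (norm_nonneg _) h0.le
  have h3 : (!₂[x 0 / lam, x 1 / lam] : E 2) = lam⁻¹ • pr x := by
    ext i
    fin_cases i
    · change x 0 / lam = lam⁻¹ * x 0
      ring
    · change x 1 / lam = lam⁻¹ * x 1
      ring
  unfold dil dens
  rw [h3]
  simp only [h2]

lemma FT_eq {lam : ℝ} (h0 : 0 < lam) (f : E 2 → ℂ) (ξ : E 3) : FT (dil lam f) ξ = FD lam f ξ := by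
  have hs : MeasurableSet (sphere (0 : E 3) 1) := isClosed_sphere.measurableSet
  unfold FT FD sg
  rw [(MeasurableEmbedding.subtype_coe hs).integral_map]
  apply integral_congr_ae
  refine ae_of_all _ fun x => ?_
  simp only
  rw [dil_eq h0]
  congr 2
  push_cast
  ring

open FourierTransform in
lemma FD_meas {lam : ℝ} (h0 : 0 < lam) (h1 : lam < 1) {f : E 2 → ℂ} (hf : Measurable f) :
    Measurable (FD lam f) := by
  have e : FD lam f = fun ξ => ((lam ^ 2 : ℝ) : ℂ) *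
      𝓕 (gm 1 (ξ 2) (lam ^ 2) (fd f)) (lam • pr ξ) := by
    ext ξ
    exact F_dens h0 h1 hf ξ
  have hfd : Measurable (fd f) := hf.indicator measurableSet_ball
  have h2 : Measurable fun ξ : E 3 => 𝓕 (gm 1 (ξ 2) (lam ^ 2) (fd f)) (lam • pr ξ) :=
    (Fgm_meas 1 hfd).comp (f := fun ξ : E 3 => (((lam ^ 2, ξ 2) : ℝ × ℝ), lam • pr ξ))
      (Measurable.prodMk (Measurable.prodMk measurable_const (by fun_prop))
        ((measurable_const_smul lam).comp pr_meas))
  rw [e]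
  exact h2.const_mul _

/-- Integrability from finiteness of the fourth-moment type quantity. -/
lemma memLp_of {lam p : ℝ} (h0 : 0 < lam) (h1 : lam < 1) {f : E 2 → ℂ} (hf : Measurable f)
    (hp : 0 < p) (hN : Nq 1 (lam ^ 2) p (fd f) univ ≠ ⊤) :
    MemLp (FT (dil lam f)) (ENNReal.ofReal p) volume := by
  have e : FT (dil lam f) = FD lam f := by
    ext ξ
    exact FT_eq h0 f ξ
  rw [e]
  refine ⟨(FD_meas h0 h1 hf).aestronglyMeasurable, ?_⟩
  rw [eLpNorm_lt_top_iff_lintegral_rpow_enorm_lt_top (ENNReal.ofReal_pos.2 hp).ne'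
    ENNReal.ofReal_ne_top, ENNReal.toReal_ofReal hp.le, FD_Lp h0 h1 hf p hp.le]
  exact ENNReal.mul_lt_top (ENNReal.mul_lt_top
    (ENNReal.rpow_ne_top_of_nonneg hp.le ENNReal.ofReal_ne_top).lt_top ENNReal.ofReal_lt_top)
    hN.lt_top

theorem result (f : EuclideanSpace ℝ (Fin 2) → ℂ) (M : ℝ) (hf : Measurable f)
    (hM : ∀ z, ‖f z‖ ≤ M) :
    (∀ p : ℝ, 3 < p → dimH {lam ∈ Ioo (0 : ℝ) 1 |
      ¬ MemLp (FT (dil lam f)) (ENNReal.ofReal p) volume} ≤ ENNReal.ofReal ((4 - p) / (p - 2))) ∧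
    (∀ᵐ lam ∂(volume.restrict (Ioo (0 : ℝ) 1)), ∀ p : ℝ, 3 < p →
      MemLp (FT (dil lam f)) (ENNReal.ofReal p) volume) := by
  have hM0 : 0 ≤ M := (norm_nonneg _).trans (hM 0)
  have hDS := fd_DS hM0 hf hM
  have hdim : ∀ p : ℝ, 3 < p → dimH {lam ∈ Ioo (0 : ℝ) 1 |
      Nq 1 (lam ^ 2) p (fd f) univ = ⊤} ≤ ENNReal.ofReal ((4 - p) / (p - 2)) :=
    fun p hp => exc_all (by linarith) hDS
  refine ⟨fun p hp => ?_, ?_⟩
  · refine (dimH_mono ?_).trans (hdim p hp)
    rintro lam ⟨hl, hn⟩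
    refine ⟨hl, ?_⟩
    by_contra hcon
    exact hn (memLp_of hl.1 hl.2 hf (by linarith) hcon)
  · have hnull : ∀ n : ℕ, ∀ᵐ lam ∂(volume.restrict (Ioo (0 : ℝ) 1)),
        Nq 1 (lam ^ 2) (3 + 1 / ((n : ℝ) + 2)) (fd f) univ ≠ ⊤ := by
      intro n
      rw [ae_restrict_iff' measurableSet_Ioo]
      have hn : (0 : ℝ) ≤ n := Nat.cast_nonneg n
      have hpos : 0 < 1 / ((n : ℝ) + 2) := by positivity
      have hd := hdim (3 + 1 / ((n : ℝ) + 2)) (by linarith)
      have hlt : ENNReal.ofReal ((4 - (3 + 1 / ((n : ℝ) + 2))) / ((3 + 1 / ((n : ℝ) + 2)) - 2)) <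
          1 := by
        rw [← ENNReal.ofReal_one, ENNReal.ofReal_lt_ofReal_iff zero_lt_one,
          div_lt_one (by linarith)]
        linarith
      have hz : μH[((1 : ℝ≥0) : ℝ)] {lam ∈ Ioo (0 : ℝ) 1 |
          Nq 1 (lam ^ 2) (3 + 1 / ((n : ℝ) + 2)) (fd f) univ = ⊤} = 0 :=
        hausdorffMeasure_of_dimH_lt (lt_of_le_of_lt hd (by exact_mod_cast hlt))
      rw [NNReal.coe_one, hausdorffMeasure_real] at hz
      rw [ae_iff]
      refine measure_mono_null ?_ hz
      intro lam hlam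
      simp only [mem_ofPred_eq, Classical.not_imp, not_not] at hlam
      exact hlam
    filter_upwards [ae_all_iff.2 hnull, ae_restrict_mem measurableSet_Ioo] with lam h hl
    intro p hp
    obtain ⟨n, hn⟩ := exists_nat_gt (1 / (p - 3))
    have hp3 : 0 < p - 3 := by linarith
    have hn0 : (0 : ℝ) ≤ n := Nat.cast_nonneg n
    have hle : 3 + 1 / ((n : ℝ) + 2) ≤ p := by
      have h1 : 1 / ((n : ℝ) + 2) ≤ p - 3 := by
        rw [div_lt_iff₀ hp3] at hn
        rw [div_le_iff₀ (by linarith)]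
        nlinarith
      linarith
    have hl2 : lam ^ 2 < 1 := by nlinarith [hl.1, hl.2]
    have hmono := Nq_mono 1 (L := lam ^ 2) (by positivity) hl2 (by positivity) hle hDS univ
    apply memLp_of hl.1 hl.2 hf (by linarith)
    refine ne_top_of_le_ne_top (ENNReal.mul_ne_top ?_ (h n)) hmono
    exact ENNReal.rpow_ne_top_of_nonneg (by linarith) ENNReal.ofReal_ne_top

end Pool.Agent.Results.MP_6cbfb8_an.AlmostEveryDilate
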