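import Mathlib
import Pool.Agent.W203.SP.Final
import Pool.Agent.W203.SP.All
set_option autoImplicit false

/-!
# Stein's restriction conjecture on the sphere of `ℝ^(k+1)`, averaged over `k` dilations

Let `k ≥ 2` and let `f` be a Borel function on the open unit ball of `ℝ^k` in `L^p`. For
`l ∈ (0,1)^k` let `dil l f` be the density on the unit sphere of `ℝ^(k+1)` which is
`f(x₁/l₁, ..., x_k/l_k)` at the points `x` with `x_(k+1) > 0` and `∑ (x_j/l_j)² < 1`, and `0`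
elsewhere. In the full range `p > 2(k+1)/k` of the conjecture in `ℝ^(k+1)`:

* the `p`-th power of the `L^p` norm of the Fourier transform of `(dil l f) dσ`, averaged over
  `l ∈ [a,b]^k`, `0 < a ≤ b < 1`, is at most `C ‖f‖_p^p`;
* for each `f` and almost every `l ∈ (0,1)^k` the Fourier transform of `(dil l f) dσ` is in `L^p`;
* if `f` is bounded, then for almost every `l ∈ (0,1)^k` it is in `L^p` for all `p > 2(k+1)/k`.
-/

namespace Pool.Agent.Results.MP_6cbfb8_an.AveragedAllDimensions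

open MeasureTheory Set Metric Complex Filter
open scoped ENNReal NNReal RealInnerProductSpace Topology

/-- The Fourier transform of the measure `g dσ`, where `σ` is the surface measure of the unit
sphere of `ℝ^(k+1)`: `ξ ↦ ∫ exp(-2πi x·ξ) g(x) dσ(x)`. -/
noncomputable def FT {k : ℕ} (g : EuclideanSpace ℝ (Fin (k + 1)) → ℂ)
    (ξ : EuclideanSpace ℝ (Fin (k + 1))) : ℂ :=
  ∫ x : sphere (0 : EuclideanSpace ℝ (Fin (k + 1))) 1,
    cexp (-(2 * Real.pi * I) *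
      ((⟪(x : EuclideanSpace ℝ (Fin (k + 1))), ξ⟫ : ℝ) : ℂ)) * g x
      ∂(volume : Measure (EuclideanSpace ℝ (Fin (k + 1)))).toSphere

/-- The dilated density: `f(x₁/l₁, ..., x_k/l_k)` if `x_(k+1) > 0` and `∑ (x_j/l_j)² < 1`, and `0`
otherwise. -/
noncomputable def dil {k : ℕ} (l : Fin k → ℝ) (f : EuclideanSpace ℝ (Fin k) → ℂ)
    (x : EuclideanSpace ℝ (Fin (k + 1))) : ℂ :=
  if 0 < x (Fin.last k) ∧ ∑ j : Fin k, (x j.castSucc / l j) ^ 2 < 1 then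
    f (WithLp.toLp 2 fun j => x j.castSucc / l j) else 0

open Pool.Agent.W203.SP (dens FD ee sg)

lemma dil_eq {k : ℕ} (l : Fin k → ℝ) (f : EuclideanSpace ℝ (Fin k) → ℂ) : dil l f = dens l f :=
  rfl

lemma FT_eq {k : ℕ} (l : Fin k → ℝ) (f : EuclideanSpace ℝ (Fin k) → ℂ) : FT (dil l f) = FD l f := by
  ext ξ
  have hs : MeasurableSet (sphere (0 : EuclideanSpace ℝ (Fin (k + 1))) 1) :=
    isClosed_sphere.measurableSet
  unfold FT FD sg
  rw [(MeasurableEmbedding.subtype_coe hs).integral_map]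
  apply integral_congr_ae
  refine ae_of_all _ fun x => ?_
  simp only [dil_eq]
  unfold ee
  congr 2
  push_cast
  ring

lemma main (h : Pool.Agent.W203.SP.S_AVG) (k : ℕ) (hk : 2 ≤ k) :
    (∀ p a b : ℝ, 2 * ((k : ℝ) + 1) / k < p → 0 < a → a ≤ b → b < 1 → ∃ C : ℝ≥0,
      ∀ f : EuclideanSpace ℝ (Fin k) → ℂ, Measurable f →
        ∫⁻ l in Icc (fun _ : Fin k => a) (fun _ => b), ∫⁻ ξ, ‖FT (dil l f) ξ‖ₑ ^ p ≤
          C * ∫⁻ z in ball 0 1, ‖f z‖ₑ ^ p) ∧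
    (∀ p : ℝ, 2 * ((k : ℝ) + 1) / k < p → ∀ f : EuclideanSpace ℝ (Fin k) → ℂ, Measurable f →
      MemLp f (ENNReal.ofReal p) (volume.restrict (ball 0 1)) →
      ∀ᵐ l : Fin k → ℝ, (∀ j, 0 < l j ∧ l j < 1) →
        MemLp (FT (dil l f)) (ENNReal.ofReal p) volume) ∧
    (∀ (M : ℝ) (f : EuclideanSpace ℝ (Fin k) → ℂ), Measurable f → (∀ z, ‖f z‖ ≤ M) →
      ∀ᵐ l : Fin k → ℝ, (∀ j, 0 < l j ∧ l j < 1) → ∀ p : ℝ, 2 * ((k : ℝ) + 1) / k < p →
        MemLp (FT (dil l f)) (ENNReal.ofReal p) volume) := by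
  have hk0 : (0 : ℝ) < k := by
    have : 0 < k := by omega
    exact_mod_cast this
  have hex : 2 * ((k : ℝ) + 1) / k = 2 + 2 / k := by
    field_simp
  rw [hex]
  have hp0 : ∀ p : ℝ, 2 + 2 / (k : ℝ) < p → 0 < p := by
    intro p hp
    have : (0 : ℝ) < 2 / (k : ℝ) := by positivity
    linarith
  refine ⟨?_, ?_, ?_⟩
  · intro p a b hp ha hab hb
    obtain ⟨C, hC, hA⟩ := h k p a b hk hp ha hab hb
    refine ⟨C.toNNReal, fun f hf => ?_⟩
    rw [ENNReal.coe_toNNReal hC.ne]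
    simp only [FT_eq]
    exact hA f hf
  · intro p hp f hf hL
    have hfin : ∫⁻ z in ball (0 : EuclideanSpace ℝ (Fin k)) 1, ‖f z‖ₑ ^ p ≠ ⊤ := by
      have h1 := hL.2
      rw [eLpNorm_lt_top_iff_lintegral_rpow_enorm_lt_top (ENNReal.ofReal_pos.2 (hp0 p hp)).ne'
        ENNReal.ofReal_ne_top, ENNReal.toReal_ofReal (hp0 p hp).le] at h1
      exact h1.ne
    filter_upwards [Pool.Agent.W203.SP.ae_fin h hk hp hf hfin] with l hl hpos
    rw [FT_eq]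
    exact Pool.Agent.W203.SP.FD_memLp l hf (hp0 p hp) (hl hpos)
  · intro M f hf hM
    filter_upwards [Pool.Agent.W203.SP.ae_all h hk hf hM] with l hl hpos p hp
    rw [FT_eq]
    exact Pool.Agent.W203.SP.FD_memLp l hf (hp0 p hp) (hl hpos p hp)

theorem result (k : ℕ) (hk : 2 ≤ k) :
    (∀ p a b : ℝ, 2 * ((k : ℝ) + 1) / k < p → 0 < a → a ≤ b → b < 1 → ∃ C : ℝ≥0,
      ∀ f : EuclideanSpace ℝ (Fin k) → ℂ, Measurable f →
        ∫⁻ l in Icc (fun _ : Fin k => a) (fun _ => b), ∫⁻ ξ, ‖FT (dil l f) ξ‖ₑ ^ p ≤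
          C * ∫⁻ z in ball 0 1, ‖f z‖ₑ ^ p) ∧
    (∀ p : ℝ, 2 * ((k : ℝ) + 1) / k < p → ∀ f : EuclideanSpace ℝ (Fin k) → ℂ, Measurable f →
      MemLp f (ENNReal.ofReal p) (volume.restrict (ball 0 1)) →
      ∀ᵐ l : Fin k → ℝ, (∀ j, 0 < l j ∧ l j < 1) →
        MemLp (FT (dil l f)) (ENNReal.ofReal p) volume) ∧
    (∀ (M : ℝ) (f : EuclideanSpace ℝ (Fin k) → ℂ), Measurable f → (∀ z, ‖f z‖ ≤ M) →
      ∀ᵐ l : Fin k → ℝ, (∀ j, 0 < l j ∧ l j < 1) → ∀ p : ℝ, 2 * ((k : ℝ) + 1) / k < p →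
        MemLp (FT (dil l f)) (ENNReal.ofReal p) volume) :=
  main Pool.Agent.W203.SP.a_AVG k hk

end Pool.Agent.Results.MP_6cbfb8_an.AveragedAllDimensions
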