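import Mathlib
import Pool.Agent.W203.SP.Final
import Pool.Agent.W203.SP.All
import Pool.Agent.W777.SP.Exc
set_option autoImplicit false

/-!
# Stein's restriction conjecture on the sphere of `ℝ^(k+1)`: the dimension of the set of bad
# dilations

Let `k ≥ 2` and let `f` be a Borel function on the open unit ball of `ℝ^k` in `L^q`, where
`q > 2(k+1)/k` is in the full range of the conjecture in `ℝ^(k+1)`. For `l ∈ (0,1)^k` let
`dil l f` be the density on the unit sphere of `ℝ^(k+1)` which is `f(x₁/l₁, ..., x_k/l_k)` at the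
points `x` with `x_(k+1) > 0` and `∑ (x_j/l_j)² < 1`, and `0` elsewhere. The set of those
`l ∈ (0,1)^k` for which the Fourier transform of `(dil l f) dσ` is not in `L^q(ℝ^(k+1))` has
Hausdorff dimension at most `max 1 (2/(q-2))`, which is less than `k`.
-/

namespace Pool.Agent.Results.MP_6cbfb8_an.ExceptionalDilates

open MeasureTheory Set Metric Complex Filter
open scoped ENNReal NNReal RealInnerProductSpace Topology

/-- The Fourier transform of the measure `g dσ`, where `σ` is the surface measure of the unit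
sphere of `ℝ^(k+1)`: `ξ ↦ ∫ exp(-2πi x·ξ) g(x) dσ(x)`. -/
noncomputable def FT {k : ℕ} (g : EuclideanSpace ℝ (Fin (k + 1)) → ℂ)
    (ξ : EuclideanSpace ℝ (Fin (k + 1))) : ℂ :=
  ∫ x : sphere (0 : EuclideanSpace ℝ (Fin (k + 1))) 1,
    cexp (-(2 * Real.pi * I) *
      ((⟪(x : EuclideanSpace ℝ (Fin (k + 1))), ξ⟫ : ℝ) : ℂ)) * g x
      ∂(volume : Measure (EuclideanSpace ℝ (Fin (k + 1)))).toSphere

/-- The dilated density: `f(x₁/l₁, ..., x_k/l_k)` if `x_(k+1) > 0` and `∑ (x_j/l_j)² < 1`, and `0`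
otherwise. -/
noncomputable def dil {k : ℕ} (l : Fin k → ℝ) (f : EuclideanSpace ℝ (Fin k) → ℂ)
    (x : EuclideanSpace ℝ (Fin (k + 1))) : ℂ :=
  if 0 < x (Fin.last k) ∧ ∑ j : Fin k, (x j.castSucc / l j) ^ 2 < 1 then
    f (WithLp.toLp 2 fun j => x j.castSucc / l j) else 0

open Pool.Agent.W203.SP (dens FD ee sg fb NQ)

lemma dil_eq {k : ℕ} (l : Fin k → ℝ) (f : EuclideanSpace ℝ (Fin k) → ℂ) : dil l f = dens l f :=
  rfl

lemma FT_eq {k : ℕ} (l : Fin k → ℝ) (f : EuclideanSpace ℝ (Fin k) → ℂ) : FT (dil l f) = FD l f := by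
  ext ξ
  have hs : MeasurableSet (sphere (0 : EuclideanSpace ℝ (Fin (k + 1))) 1) :=
    isClosed_sphere.measurableSet
  unfold FT FD sg
  rw [(MeasurableEmbedding.subtype_coe hs).integral_map]
  apply integral_congr_ae
  refine ae_of_all _ fun x => ?_
  simp only [dil_eq]
  unfold ee
  congr 2
  push_cast
  ring

/-- the square root in every coordinate -/
noncomputable def rt {k : ℕ} (s : Fin k → ℝ) : Fin k → ℝ := fun j => Real.sqrt (s j)

lemma rt_lip {k : ℕ} (x : Fin k → ℝ) (hx : ∀ j, 0 < x j) :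
    ∃ C : ℝ≥0, ∃ t ∈ 𝓝 x, LipschitzOnWith C (rt (k := k)) t := by
  -- a positive lower bound of the coordinates
  obtain ⟨c, hc, hcx⟩ : ∃ c : ℝ, 0 < c ∧ ∀ j, c < x j := by
    by_cases hne : Nonempty (Fin k)
    · obtain ⟨j, hj⟩ := Finite.exists_min x
      exact ⟨x j / 2, by linarith [hx j], fun i => by linarith [hx j, hj i]⟩
    · exact ⟨1, one_pos, fun j => (hne ⟨j⟩).elim⟩
  refine ⟨(1 / Real.sqrt c).toNNReal, {s | ∀ j, c < s j}, ?_, ?_⟩
  · have h1 : IsOpen {s : Fin k → ℝ | ∀ j, c < s j} := by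
      have h2 : {s : Fin k → ℝ | ∀ j, c < s j} = ⋂ j, {s : Fin k → ℝ | c < s j} := by
        ext s
        simp
      rw [h2]
      exact isOpen_iInter_of_finite fun j => isOpen_lt continuous_const (continuous_apply j)
    exact h1.mem_nhds hcx
  · apply LipschitzOnWith.of_dist_le_mul
    intro u hu v hv
    have hsc : 0 < Real.sqrt c := Real.sqrt_pos.2 hc
    rw [Real.coe_toNNReal _ (by positivity)]
    rw [dist_pi_le_iff (by positivity)]
    intro j
    have hu1 : c < u j := hu j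
    have hv1 : c < v j := hv j
    have h3 : dist (u j) (v j) ≤ dist u v := dist_le_pi_dist u v j
    rw [Real.dist_eq] at h3
    unfold rt
    rw [Real.dist_eq]
    have h4 : Real.sqrt c ≤ Real.sqrt (u j) + Real.sqrt (v j) := by
      have := Real.sqrt_le_sqrt hu1.le
      have := Real.sqrt_nonneg (v j)
      linarith
    have h5 : |Real.sqrt (u j) - Real.sqrt (v j)| * (Real.sqrt (u j) + Real.sqrt (v j)) =
        |u j - v j| := by
      have h6 : u j - v j = (Real.sqrt (u j) - Real.sqrt (v j)) *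
          (Real.sqrt (u j) + Real.sqrt (v j)) := by
        have h7 := Real.mul_self_sqrt (hc.le.trans hu1.le)
        have h8 := Real.mul_self_sqrt (hc.le.trans hv1.le)
        linarith
      rw [h6, abs_mul, abs_of_nonneg (a := Real.sqrt (u j) + Real.sqrt (v j)) (by positivity)]
    have h9 : |Real.sqrt (u j) - Real.sqrt (v j)| * Real.sqrt c ≤ |u j - v j| := by
      rw [← h5]
      exact mul_le_mul_of_nonneg_left h4 (abs_nonneg _)
    have h10 : |Real.sqrt (u j) - Real.sqrt (v j)| ≤ 1 / Real.sqrt c * |u j - v j| := by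
      rw [one_div_mul_eq_div, le_div_iff₀ hsc]
      exact h9
    refine h10.trans ?_
    exact mul_le_mul_of_nonneg_left h3 (by positivity)

lemma main (h : Pool.Agent.W203.SP.S_EXC) (hF : Pool.Agent.W203.SP.S_FDL) (k : ℕ) (hk : 2 ≤ k)
    (q : ℝ) (hq : 2 < q) (f : EuclideanSpace ℝ (Fin k) → ℂ) (hf : Measurable f)
    (hL : MemLp f (ENNReal.ofReal q) (volume.restrict (ball 0 1))) :
    dimH {l : Fin k → ℝ | (∀ j, 0 < l j ∧ l j < 1) ∧
        ¬ MemLp (FT (dil l f)) (ENNReal.ofReal q) volume} ≤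
      ENNReal.ofReal (1 + max 0 ((4 - q) / (q - 2))) := by
  have hq0 : 0 < q := by linarith
  have hfin : ∫⁻ z in ball (0 : EuclideanSpace ℝ (Fin k)) 1, ‖f z‖ₑ ^ q ≠ ⊤ := by
    have h1 := hL.2
    rw [eLpNorm_lt_top_iff_lintegral_rpow_enorm_lt_top (ENNReal.ofReal_pos.2 hq0).ne'
      ENNReal.ofReal_ne_top, ENNReal.toReal_ofReal hq0.le] at h1
    exact h1.ne
  have hfb : Measurable (fb f) := hf.indicator measurableSet_ball
  have hsupp : ∀ z, 1 < ‖z‖ → fb f z = 0 := by
    intro z hz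
    unfold fb
    rw [indicator_of_notMem]
    rw [mem_ball_zero_iff]
    linarith
  have hfin2 : ∫⁻ z, ‖fb f z‖ₑ ^ q ≠ ⊤ := by
    have h2 : ∀ z, ‖fb f z‖ₑ ^ q =
        (ball (0 : EuclideanSpace ℝ (Fin k)) 1).indicator (fun z => ‖f z‖ₑ ^ q) z := by
      intro z
      unfold fb
      by_cases hz : z ∈ ball (0 : EuclideanSpace ℝ (Fin k)) 1
      · rw [indicator_of_mem hz, indicator_of_mem hz]
      · rw [indicator_of_notMem hz, indicator_of_notMem hz, enorm_zero,
          ENNReal.zero_rpow_of_pos hq0]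
    simp only [h2]
    rw [lintegral_indicator measurableSet_ball]
    exact hfin
  have hmain := h k q hk hq (fb f) hfb hsupp hfin2
  set E : Set (Fin k → ℝ) := {s | (∀ j, 0 < s j ∧ s j < 1) ∧ NQ 1 q univ s (fb f) = ⊤} with hE
  have hsub : {l : Fin k → ℝ | (∀ j, 0 < l j ∧ l j < 1) ∧
      ¬ MemLp (FT (dil l f)) (ENNReal.ofReal q) volume} ⊆ rt '' E := by
    rintro l ⟨hl, hn⟩
    refine ⟨fun j => l j ^ 2, ⟨fun j => ⟨by have := (hl j).1; positivity, ?_⟩, ?_⟩, ?_⟩
    · have h1 := (hl j).1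
      have h2 := (hl j).2
      nlinarith
    · by_contra hcon
      apply hn
      rw [FT_eq]
      apply Pool.Agent.W203.SP.FD_memLp l hf hq0
      rw [hF k l hl f hf q hq0.le]
      exact ENNReal.mul_lt_top (ENNReal.mul_lt_top ENNReal.ofReal_lt_top ENNReal.ofReal_lt_top)
        (lt_top_iff_ne_top.2 hcon)
    · ext j
      exact Real.sqrt_sq (hl j).1.le
  refine (dimH_mono hsub).trans ((dimH_image_le_of_locally_lipschitzOn ?_).trans hmain)
  rintro s ⟨hs, -⟩
  obtain ⟨C, t, ht, hlip⟩ := rt_lip s fun j => (hs j).1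
  exact ⟨C, t, mem_nhdsWithin_of_mem_nhds ht, hlip⟩

theorem result (k : ℕ) (hk : 2 ≤ k) (q : ℝ) (hq : 2 * ((k : ℝ) + 1) / k < q)
    (f : EuclideanSpace ℝ (Fin k) → ℂ) (hf : Measurable f)
    (hL : MemLp f (ENNReal.ofReal q) (volume.restrict (ball 0 1))) :
    dimH {l : Fin k → ℝ | (∀ j, 0 < l j ∧ l j < 1) ∧
        ¬ MemLp (FT (dil l f)) (ENNReal.ofReal q) volume} ≤
      ENNReal.ofReal (max 1 (2 / (q - 2))) ∧
    max 1 (2 / (q - 2)) < k := by
  have hk2 : (2 : ℝ) ≤ k := by exact_mod_cast hk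
  have hk0 : (0 : ℝ) < k := by linarith
  have hex : 2 * ((k : ℝ) + 1) / k = 2 + 2 / k := by
    field_simp
  rw [hex] at hq
  have hpos : (0 : ℝ) < 2 / (k : ℝ) := by positivity
  have hq2 : 2 < q := by linarith
  have hq3 : 0 < q - 2 := by linarith
  have h1 := main (Pool.Agent.W777.SP.t_EXC Pool.Agent.W203.SP.a_M4 Pool.Agent.W203.SP.a_MG)
    Pool.Agent.W203.SP.a_FDL k hk q hq2 f hf hL
  have h2 : 1 + max 0 ((4 - q) / (q - 2)) = max 1 (2 / (q - 2)) := by
    rw [← max_add_add_left]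
    congr 1
    · norm_num
    · field_simp
      ring
  rw [h2] at h1
  refine ⟨h1, max_lt (by linarith) ?_⟩
  rw [div_lt_iff₀ hq3]
  have h3 : 2 / (k : ℝ) < q - 2 := by linarith
  rw [div_lt_iff₀ hk0] at h3
  linarith

end Pool.Agent.Results.MP_6cbfb8_an.ExceptionalDilates
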