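import Mathlib
import Pool.Agent.W770.PC.Asm4
set_option autoImplicit false

/-!
# Stein's restriction conjecture on the sphere of `ℝ³` for densities with a polynomial phase

For every `p > 3` and all `D`, `k` there is a constant `C` such that for every real polynomial `P`
in three variables of degree at most `D` and every intersection `K` of `k` closed half spaces the
Fourier transform of the measure `1_K exp(i P) dσ` on the unit sphere of `ℝ³` has `L^p(ℝ³)` norm at
most `C`.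
-/

namespace Pool.Agent.Results.MP_6cbfb8_an.PolynomialPhases

open MeasureTheory Set Metric Complex Filter
open scoped ENNReal NNReal RealInnerProductSpace Topology

/-- The Fourier transform of the measure `g dσ`, where `σ` is the surface measure of the unit
sphere of `ℝ³`: `ξ ↦ ∫ exp(-2πi x·ξ) g(x) dσ(x)`. -/
noncomputable def FT (g : EuclideanSpace ℝ (Fin 3) → ℂ) (ξ : EuclideanSpace ℝ (Fin 3)) : ℂ :=
  ∫ x : sphere (0 : EuclideanSpace ℝ (Fin 3)) 1,
    cexp (-(2 * Real.pi * I) * ((⟪(x : EuclideanSpace ℝ (Fin 3)), ξ⟫ : ℝ) : ℂ)) * g x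
      ∂(volume : Measure (EuclideanSpace ℝ (Fin 3))).toSphere

/-- The function `exp(i P(x))`. -/
noncomputable def chirp (P : MvPolynomial (Fin 3) ℝ) (x : EuclideanSpace ℝ (Fin 3)) : ℂ :=
  cexp (I * ((MvPolynomial.eval (fun i => x i) P : ℝ) : ℂ))

/-- The intersection of the closed half spaces `ω_j·x ≥ c_j`, `j < k`. -/
def cut {k : ℕ} (ω : Fin k → EuclideanSpace ℝ (Fin 3)) (c : Fin k → ℝ) :
    Set (EuclideanSpace ℝ (Fin 3)) := {x | ∀ j, c j ≤ ⟪ω j, x⟫}

lemma FT_eq (g : EuclideanSpace ℝ (Fin 3) → ℂ) (ξ : EuclideanSpace ℝ (Fin 3)) :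
    FT g ξ = Pool.Agent.W770.PC.SF g ξ := by
  have hs : MeasurableSet (sphere (0 : EuclideanSpace ℝ (Fin 3)) 1) := isClosed_sphere.measurableSet
  unfold FT Pool.Agent.W770.PC.SF Pool.Agent.H789R2.FR.sg
  rw [(MeasurableEmbedding.subtype_coe hs).integral_map]
  apply integral_congr_ae
  refine ae_of_all _ fun x => ?_
  simp only [Pool.Agent.W770.PC.ee]
  congr 2
  push_cast
  ring

theorem result (p : ℝ) (hp : 3 < p) (D k : ℕ) :
    ∃ C : ℝ, ∀ P : MvPolynomial (Fin 3) ℝ, P.totalDegree ≤ D →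
      ∀ (ω : Fin k → EuclideanSpace ℝ (Fin 3)) (c : Fin k → ℝ), (∀ j, ‖ω j‖ = 1) →
        eLpNorm (FT ((cut ω c).indicator (chirp P))) (ENNReal.ofReal p) volume ≤
          ENNReal.ofReal C := by
  obtain ⟨K, -, hK⟩ := Pool.Agent.W770.PC.polyS_all D k p hp
  refine ⟨K, fun P hP ω c hω => ?_⟩
  have h1 := hK P hP ω c hω
  have e1 : cut ω c = ⋂ j, {x : EuclideanSpace ℝ (Fin 3) | c j ≤ ⟪ω j, x⟫} := by
    ext x
    simp [cut]
  have e2 : chirp P = Pool.Agent.W770.PC.pe P := by
    ext x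
    unfold chirp Pool.Agent.W770.PC.pe Pool.Agent.W770.PC.ee
    rw [mul_comm]
  have e3 : FT ((cut ω c).indicator (chirp P)) = Pool.Agent.W770.PC.SF
      ((⋂ j, {x : EuclideanSpace ℝ (Fin 3) | c j ≤ ⟪ω j, x⟫}).indicator
        (Pool.Agent.W770.PC.pe P)) := by
    funext ξ
    rw [FT_eq, e1, e2]
  rw [e3]
  exact h1

end Pool.Agent.Results.MP_6cbfb8_an.PolynomialPhases
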